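import Pool.Agent.helper51.QS.SpecB

/-!
# Project qs (MP_74cfa5_ag), row qs:GE2
-/

set_option autoImplicit false

namespace Pool.Agent.QS

open Pool.Agent.PC MvPolynomial

universe u

theorem GE2 : GE2_stmt.{u} := by
  intro k B L _ _ _ _ _ _ _ _ _ e x hx 𝔮 h𝔮 hne
  rintro ⟨z, hz⟩
  have hsurj : Function.Surjective (Ideal.Quotient.mk 𝔮) := Ideal.Quotient.mk_surjective
  choose y hy using fun i => hsurj (z i)
  have hyz : ∀ P : MvPolynomial (Fin e) k, Ideal.Quotient.mk 𝔮 (aeval y P) = aeval z P := by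
    intro P
    have h1 : (Ideal.Quotient.mkₐ k 𝔮) (aeval y P) = aeval (fun i => (Ideal.Quotient.mkₐ k 𝔮) (y i)) P := by
      rw [← MvPolynomial.comp_aeval_apply]
    have h2 : (fun i => (Ideal.Quotient.mkₐ k 𝔮) (y i)) = z := funext hy
    rw [h2] at h1
    exact h1
  have hyi : AlgebraicIndependent k y := by
    rw [algebraicIndependent_iff]
    intro P hP
    have h1 := hyz P
    rw [hP, map_zero] at h1
    exact (algebraicIndependent_iff.1 hz) P h1.symm
  have hinj : Function.Injective (IsScalarTower.toAlgHom k B L) := IsFractionRing.injective B L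
  have hle : Algebra.trdeg k B ≤ Algebra.trdeg k L := trdeg_le_of_injective _ hinj
  have hcard := hx.lift_cardinalMk_eq_trdeg
  have hyb : IsTranscendenceBasis k y := by
    refine hyi.isTranscendenceBasis_of_lift_trdeg_le_of_finite ?_
    rw [hcard]
    exact Cardinal.lift_le.2 hle
  haveI := hyb.isAlgebraic
  obtain ⟨b, hb, hb0⟩ := Submodule.exists_mem_ne_zero_of_ne_bot hne
  have halg : IsAlgebraic (Algebra.adjoin k (Set.range y)) b := Algebra.IsAlgebraic.isAlgebraic b
  obtain ⟨r, hr0, hr⟩ := halg.exists_nonzero_dvd (mem_nonZeroDivisors_of_ne_zero hb0)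
  have hrm : (r : B) ∈ 𝔮 := by
    obtain ⟨c, hc⟩ := hr
    have : (r : B) = b * c := hc
    rw [this]
    exact Ideal.mul_mem_right _ _ hb
  have hr2 : (r : B) ∈ (aeval (R := k) y : MvPolynomial (Fin e) k →ₐ[k] B).range :=
    (Algebra.adjoin_range_eq_range_aeval k y) ▸ r.2
  obtain ⟨P, hP⟩ := hr2
  have h3 : aeval z P = 0 := by
    rw [← hyz P]
    have h4 : aeval y P = (r : B) := hP
    rw [h4]
    exact Ideal.Quotient.eq_zero_iff_mem.2 hrm
  have h5 := (algebraicIndependent_iff.1 hz) P h3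
  apply hr0
  apply Subtype.ext
  have h4 : aeval y P = (r : B) := hP
  rw [← h4, h5, map_zero]
  rfl

end Pool.Agent.QS
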