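import Pool.Agent.helper51.QS.SpecB

/-!
# Project qs (MP_74cfa5_ag), row qs:RPM
-/

set_option autoImplicit false

namespace Pool.Agent.QS

open Pool.Agent.PC MvPolynomial

universe u

theorem RPM (hTEQ : TEQ_stmt.{u}) (hGHM : GHM_stmt.{u}) (hRAD : RAD_stmt.{u}) :
    RPM_stmt.{u} := by
  intro k R A F K G _ _ _ _ _ _ _ _ _ _ _ _ _ _ _ _ _ _ _ _ _ _ _ _ _ _ _ _ _ _ _ _ _ _ _ _ n
    hG S B ω μ g hω hg hμ hB m hm hUF hSm hC
  have hmp : m.IsPrime := hm.isPrime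
  have hI1 : (S.map (algebraMap R A)).radical.IsRadical := Ideal.radical_isRadical _
  have hI2 : ∀ Q ∈ (S.map (algebraMap R A)).radical.minimalPrimes, Q.height = 1 := fun Q hQ =>
    ((hRAD R A G S hB.1 hB.2.1).1 Q hQ).1
  have hI3 : (S.map (algebraMap R A)).radical ≤ m :=
    hmp.radical_le_iff.2 (Ideal.map_le_iff_le_comap.2 hSm)
  obtain ⟨t, ht0, htE, htL⟩ := hTEQ A K m hUF _ hI1 hI2 hI3
  refine ⟨t, ht0, htE, ?_⟩
  intro D y hDy Ψ hΨ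
  have hg' : algebraMap F K g ≠ 0 := by
    rw [Ne, map_eq_zero_iff _ (algebraMap F K).injective]
    exact hg
  have hΨω : Ψ ω ≠ 0 := fun h => hω (hΨ.2.1 ω h)
  refine htL _ μ (div_ne_zero hg' (pow_ne_zero _ hΨω)) ?_
  intro Q v hQ hQ1 hQm hv
  have h := hGHM k R A F K G n D y hDy Ψ hΨ hG S B ω μ g hω hg hμ hB m hm hC Q v hQ hQ1 hQm hv
  refine ⟨h.1, fun hIQ => h.2 ?_⟩
  exact Ideal.map_le_iff_le_comap.1 (Ideal.le_radical.trans hIQ)

end Pool.Agent.QS
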