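import Pool.Agent.helper51.QS.SpecB

/-!
# Project qs (MP_74cfa5_ag), row qs:TRC
-/

set_option autoImplicit false

namespace Pool.Agent.QS

open Pool.Agent.PC MvPolynomial

universe u

/-- The elements of the group which preserve an ideal (in both directions). -/
def TRC_stab {A G : Type u} [CommRing A] [Group G] [MulSemiringAction G A] (m : Ideal A) :
    Subgroup G where
  carrier := {g | ∀ a : A, a ∈ m ↔ g • a ∈ m}
  mul_mem' := by
    intro g h hg hh a
    rw [hh a, hg (h • a), mul_smul]
  one_mem' := by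
    intro a
    rw [one_smul]
  inv_mem' := by
    intro g hg a
    rw [hg (g⁻¹ • a), smul_inv_smul]

theorem TRC_mem_stab {A G : Type u} [CommRing A] [Group G] [MulSemiringAction G A] (m : Ideal A)
    (g : G) : g ∈ TRC_stab (G := G) m ↔ ∀ a : A, a ∈ m ↔ g • a ∈ m := Iff.rfl

theorem TRC_exists {A G : Type u} [CommRing A] [Group G] [MulSemiringAction G A] (m : Ideal A)
    (hm : m.IsMaximal) (g : G) : ∃ x : A, (g ∉ TRC_stab (G := G) m → g • x ∈ m) ∧ x - 1 ∈ m := by
  by_cases hg : g ∈ TRC_stab (G := G) m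
  · exact ⟨1, fun h => absurd hg h, by rw [sub_self]; exact m.zero_mem⟩
  · let f : A →+* A := MulSemiringAction.toRingHom G A g
    have hf : ∀ a, f a = g • a := fun a => rfl
    have hfs : Function.Surjective f := fun a => ⟨g⁻¹ • a, by rw [hf, smul_inv_smul]⟩
    have hmax : (m.comap f).IsMaximal := Ideal.comap_isMaximal_of_surjective f hfs
    have hne : m.comap f ≠ m := by
      intro h
      apply hg
      rw [TRC_mem_stab]
      intro a
      have h2 : a ∈ m.comap f ↔ a ∈ m := by rw [h]
      rw [← h2, Ideal.mem_comap, hf]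
    have hsup : m.comap f ⊔ m = ⊤ := hmax.coprime_of_ne hm hne
    have h1 : (1 : A) ∈ m.comap f ⊔ m := by rw [hsup]; exact Submodule.mem_top
    obtain ⟨x, hx, y, hy, hxy⟩ := Submodule.mem_sup.1 h1
    refine ⟨x, fun _ => ?_, ?_⟩
    · rw [← hf]
      exact hx
    · have : x - 1 = -y := by rw [← hxy]; ring
      rw [this]
      exact m.neg_mem hy

theorem TRC : TRC_stmt.{u} := by
  classical
  intro R A G _ _ _ _ _ _ _ _ _ p hp _ S hS
  haveI : Fintype G := Fintype.ofFinite G
  have htr : ∀ c : A, ∃ r : R, algebraMap R A r = ∑ g : G, g • c := by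
    intro c
    refine Algebra.IsInvariant.isInvariant (A := R) (B := A) (G := G) _ ?_
    intro h
    rw [Finset.smul_sum]
    refine Fintype.sum_bijective (fun g => h * g) (Group.mulLeft_bijective h) _ _ ?_
    intro g
    rw [mul_smul]
  let T : Ideal R :=
    { carrier := {r | ∃ c : A, algebraMap R A r = ∑ g : G, g • c}
      add_mem' := by
        rintro a b ⟨c, hc⟩ ⟨d, hd⟩
        refine ⟨c + d, ?_⟩
        rw [map_add, hc, hd, ← Finset.sum_add_distrib]
        exact Finset.sum_congr rfl fun g _ => (smul_add g c d).symm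
      zero_mem' := ⟨0, by simp⟩
      smul_mem' := by
        rintro r a ⟨c, hc⟩
        refine ⟨algebraMap R A r * c, ?_⟩
        rw [smul_eq_mul, map_mul, hc, Finset.mul_sum]
        refine Finset.sum_congr rfl fun g _ => ?_
        rw [smul_mul', smul_algebraMap] }
  have hT : ∀ r, r ∈ T ↔ ∃ c : A, algebraMap R A r = ∑ g : G, g • c := fun r => Iff.rfl
  have key : T ⊔ S = ⊤ := by
    by_contra hne
    obtain ⟨M, hM, hTM⟩ := Ideal.exists_le_maximal _ hne
    haveI : Algebra.IsIntegral R A := Algebra.IsInvariant.isIntegral R A G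
    have hinj : Function.Injective (algebraMap R A) := FaithfulSMul.algebraMap_injective R A
    have hker : RingHom.ker (algebraMap R A) ≤ M := by
      rw [(RingHom.injective_iff_ker_eq_bot _).1 hinj]
      exact bot_le
    obtain ⟨m, hm, hmM⟩ := Ideal.exists_ideal_over_maximal_of_isIntegral M hker
    have hSm : S ≤ m.comap (algebraMap R A) := by
      rw [hmM]
      exact le_sup_right.trans hTM
    have hTm : T ≤ m.comap (algebraMap R A) := by
      rw [hmM]
      exact le_sup_left.trans hTM
    choose x hx1 hx2 using fun g : G => TRC_exists (G := G) m hm g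
    let a : A := ∏ g : G, x g
    have ha1 : a - 1 ∈ m := by
      rw [← Ideal.Quotient.eq_zero_iff_mem, map_sub, map_prod, map_one, sub_eq_zero]
      refine Finset.prod_eq_one fun g _ => ?_
      have := hx2 g
      rw [← Ideal.Quotient.eq_zero_iff_mem, map_sub, map_one, sub_eq_zero] at this
      exact this
    have ha2 : ∀ g : G, g ∉ TRC_stab (G := G) m → g • a ∈ m := by
      intro g hg
      have e : a = x g * ∏ h ∈ Finset.univ.erase g, x h :=
        (Finset.mul_prod_erase Finset.univ x (Finset.mem_univ g)).symm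
      rw [e, smul_mul']
      exact Ideal.mul_mem_right _ _ (hx1 g hg)
    have hsum : (∑ g : G, g • a) - ∑ g : G, (if g ∈ TRC_stab (G := G) m then (1 : A) else 0) ∈ m := by
      rw [← Finset.sum_sub_distrib]
      refine Ideal.sum_mem _ fun g _ => ?_
      by_cases hg : g ∈ TRC_stab (G := G) m
      · rw [if_pos hg]
        have e : g • a - 1 = g • (a - 1) := by rw [smul_sub, smul_one]
        rw [e]
        exact ((TRC_mem_stab m g).1 hg _).1 ha1
      · rw [if_neg hg, sub_zero]
        exact ha2 g hg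
    have htrm : (∑ g : G, g • a) ∈ m := by
      obtain ⟨r, hr⟩ := htr a
      rw [← hr]
      exact hTm ((hT r).2 ⟨a, hr⟩)
    have hcard : ((Nat.card (TRC_stab (G := G) m) : ℕ) : A) ∈ m := by
      have e : (∑ g : G, (if g ∈ TRC_stab (G := G) m then (1 : A) else 0)) =
          ((Nat.card (TRC_stab (G := G) m) : ℕ) : A) := by
        rw [Finset.sum_boole, Nat.card_eq_fintype_card, Fintype.card_subtype]
      have h2 := m.sub_mem htrm hsum
      rw [sub_sub_cancel, e] at h2
      exact h2
    have hcop : ¬ p ∣ Nat.card (TRC_stab (G := G) m) := by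
      intro hdvd
      obtain ⟨σ, hσ⟩ := exists_prime_orderOf_dvd_card' p hdvd
      refine hS m hm hSm (σ : G) (fun b hb => ((TRC_mem_stab m _).1 σ.2 b).1 hb) ?_
      rw [Subgroup.orderOf_coe, hσ]
    have hcop2 : Nat.Coprime p (Nat.card (TRC_stab (G := G) m)) :=
      (Nat.Prime.coprime_iff_not_dvd hp.out).2 hcop
    have hb : (1 : A) ∈ m := by
      have hbez := Nat.gcd_eq_gcd_ab p (Nat.card (TRC_stab (G := G) m))
      rw [Nat.coprime_iff_gcd_eq_one.1 hcop2] at hbez
      have hbez2 : ((1 : ℤ) : A) = ((p : ℤ) * Nat.gcdA p (Nat.card (TRC_stab (G := G) m)) +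
          (Nat.card (TRC_stab (G := G) m) : ℤ) * Nat.gcdB p (Nat.card (TRC_stab (G := G) m)) : ℤ) := by
        rw [← hbez, Nat.cast_one]
      push_cast at hbez2
      rw [CharP.cast_eq_zero, zero_mul, zero_add] at hbez2
      rw [hbez2]
      exact Ideal.mul_mem_right _ _ hcard
    exact hm.ne_top ((Ideal.eq_top_iff_one _).2 hb)
  have h1 : (1 : R) ∈ T ⊔ S := by rw [key]; exact Submodule.mem_top
  obtain ⟨r, hr, s, hs, hrs⟩ := Submodule.mem_sup.1 h1
  obtain ⟨c, hc⟩ := (hT r).1 hr
  refine ⟨c, r, ?_, ?_⟩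
  · rw [hc, finsum_eq_sum_of_fintype]
  · have : r - 1 = -s := by rw [← hrs]; ring
    rw [this]
    exact S.neg_mem hs

end Pool.Agent.QS
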