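import Pool.Agent.helper32.QS.Spec

/-!
# QS, module CII: some commutator of a Heisenberg pair is outside `S`
-/

set_option autoImplicit false

namespace QS

open scoped BigOperators commutatorElement

/-- the commutator of a Heisenberg pair has `p`-th power one -/
lemma CII_pow {G : Type} [Group G] {p : ℕ} {x y : G} (h : Heis p x y) : ⁅x, y⁆ ^ p = 1 := by
  obtain ⟨hx, _, _, hcx, hcy⟩ := h
  have h0 : x * y = ⁅x, y⁆ * y * x := by
    rw [commutatorElement_def]; group
  have h1 : ∀ k : ℕ, x ^ k * y = ⁅x, y⁆ ^ k * y * x ^ k := by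
    intro k
    induction k with
    | zero => simp
    | succ k ih =>
      have hc : x * ⁅x, y⁆ ^ k = ⁅x, y⁆ ^ k * x := by
        have : Commute x (⁅x, y⁆ ^ k) := Commute.pow_right (show Commute x ⁅x, y⁆ from hcx.symm) k
        exact this
      calc x ^ (k + 1) * y = x * (x ^ k * y) := by rw [pow_succ']; group
        _ = x * (⁅x, y⁆ ^ k * y * x ^ k) := by rw [ih]
        _ = (x * ⁅x, y⁆ ^ k) * y * x ^ k := by group
        _ = ⁅x, y⁆ ^ k * (x * y) * x ^ k := by rw [hc]; group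
        _ = ⁅x, y⁆ ^ k * (⁅x, y⁆ * y * x) * x ^ k := by rw [← h0]
        _ = (⁅x, y⁆ ^ k * ⁅x, y⁆) * y * (x * x ^ k) := by group
        _ = ⁅x, y⁆ ^ (k + 1) * y * x ^ (k + 1) := by rw [← pow_succ, ← pow_succ']
  have h2 := h1 p
  rw [hx, one_mul, mul_one] at h2
  exact (mul_eq_right.mp h2.symm)

/-- counting -/
lemma CII_cnt (U H : Type) [Finite U] [Finite H] [SMul H U] (P : H → Prop) (N : ℕ)
    (hP : ∀ z, P z → Nat.card {u : U // z • u = u} ≤ N) (B : Set U)
    (hB : ∀ u ∈ B, ∃ z, P z ∧ z • u = u) : B.ncard ≤ Nat.card H * N := by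
  classical
  have := Fintype.ofFinite U
  have := Fintype.ofFinite H
  have hsub : B ⊆ ((Finset.univ.filter fun z : H => P z).biUnion
      (fun z => Finset.univ.filter fun u : U => z • u = u) : Finset U) := by
    intro u hu
    obtain ⟨z, hz, hzu⟩ := hB u hu
    simp only [Finset.coe_biUnion, Set.mem_iUnion, Finset.coe_filter, Finset.mem_univ, true_and,
      Set.mem_ofPred_eq]
    exact ⟨z, hz, hzu⟩
  calc B.ncard ≤ (((Finset.univ.filter fun z : H => P z).biUnion
      (fun z => Finset.univ.filter fun u : U => z • u = u) : Finset U) : Set U).ncard :=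
        Set.ncard_le_ncard hsub (Set.toFinite _)
    _ = ((Finset.univ.filter fun z : H => P z).biUnion
      (fun z => Finset.univ.filter fun u : U => z • u = u)).card := Set.ncard_coe_finset _
    _ ≤ (Finset.univ.filter fun z : H => P z).card * N := by
        apply Finset.card_biUnion_le_card_mul
        intro z hz
        have h := hP z (Finset.mem_filter.mp hz).2
        rw [Nat.card_eq_fintype_card, Fintype.card_subtype] at h
        exact h
    _ ≤ Nat.card H * N := by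
        apply Nat.mul_le_mul_right
        rw [Nat.card_eq_fintype_card]
        exact Finset.card_le_univ _

/-- `6` is not a prime power -/
lemma CII_six (l i : ℕ) (hl : l.Prime) : l ^ i ≠ 6 := by
  intro h
  have h2 : 2 ∣ l ^ i := by rw [h]; norm_num
  have h3 : 3 ∣ l ^ i := by rw [h]; norm_num
  have h2' := (Nat.prime_dvd_prime_iff_eq Nat.prime_two hl).mp (Nat.prime_two.dvd_of_dvd_pow h2)
  have h3' := (Nat.prime_dvd_prime_iff_eq Nat.prime_three hl).mp
    (Nat.prime_three.dvd_of_dvd_pow h3)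
  omega

/-- the numerical part of case (a) -/
lemma CII_num (p l i n E K : ℕ) (hp : p.Prime) (h5 : 5 ≤ p) (hl : l.Prime) (hi : 1 ≤ i)
    (hmod : l ^ i % p = 1) (hdvd : l ^ (i * p) ∣ E) (hE0 : 0 < E) (hE : E ≤ n ^ 2)
    (hK : l ∣ K - 1) (hK2 : 2 ≤ K) :
    (402 ≤ n ∧ 12 ≤ K) ∨ (1024 ≤ n ∧ 3 ≤ K) := by
  have ht2 : 2 ≤ l ^ i := le_trans hl.two_le (Nat.le_self_pow (by omega) l)
  have hle : (l ^ i) ^ p ≤ n ^ 2 := by
    rw [← pow_mul]
    exact le_trans (Nat.le_of_dvd hE0 hdvd) hE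
  have hlK : l ≤ K - 1 := Nat.le_of_dvd (by omega) hK
  have hl2 := hl.two_le
  have hq : l ^ i = p * (l ^ i / p) + 1 := by
    have := Nat.div_add_mod (l ^ i) p
    omega
  have hq1 : 1 ≤ l ^ i / p := by
    apply Nat.pos_of_ne_zero
    intro h0
    rw [h0, Nat.mul_zero] at hq
    omega
  have hsq : ∀ a b : ℕ, a ^ 2 ≤ b ^ 2 → a ≤ b := fun a b h => by
    exact (Nat.pow_le_pow_iff_left (by norm_num)).mp h
  rcases Nat.lt_or_ge p 11 with h11 | h11
  · have hp57 : p = 5 ∨ p = 7 := by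
      have h6 : p ≠ 6 := by rintro rfl; revert hp; decide
      have h8 : p ≠ 8 := by rintro rfl; revert hp; decide
      have h9 : p ≠ 9 := by rintro rfl; revert hp; decide
      have h10 : p ≠ 10 := by rintro rfl; revert hp; decide
      omega
    rcases hp57 with rfl | rfl
    · have hne6 := CII_six l i hl
      have hge : l ^ i = 11 ∨ 16 ≤ l ^ i := by omega
      rcases hge with h | h
      · left
        have hl11 : l = 11 := by
          have hd : l ∣ 11 := by rw [← h]; exact dvd_pow_self l (by omega)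
          exact (Nat.prime_dvd_prime_iff_eq hl (by norm_num)).mp hd
        rw [h] at hle
        refine ⟨?_, by omega⟩
        by_contra hcon
        have : n ≤ 401 := by omega
        have h3 : n ^ 2 ≤ 401 ^ 2 := Nat.pow_le_pow_left this 2
        have h4 : (11 : ℕ) ^ 5 ≤ 401 ^ 2 := le_trans hle h3
        revert h4; norm_num
      · right
        refine ⟨?_, by omega⟩
        apply hsq
        calc 1024 ^ 2 = 16 ^ 5 := by norm_num
          _ ≤ (l ^ i) ^ 5 := Nat.pow_le_pow_left h 5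
          _ ≤ n ^ 2 := hle
    · right
      refine ⟨?_, by omega⟩
      apply hsq
      have h : 8 ≤ l ^ i := by omega
      calc 1024 ^ 2 ≤ 8 ^ 7 := by norm_num
        _ ≤ (l ^ i) ^ 7 := Nat.pow_le_pow_left h 7
        _ ≤ n ^ 2 := hle
  · right
    refine ⟨?_, by omega⟩
    apply hsq
    have h : 12 ≤ l ^ i := by
      have : p * 1 ≤ p * (l ^ i / p) := Nat.mul_le_mul_left p hq1
      omega
    calc 1024 ^ 2 ≤ 12 ^ 11 := by norm_num
      _ ≤ (l ^ i) ^ 11 := Nat.pow_le_pow_left h 11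
      _ ≤ (l ^ i) ^ p := Nat.pow_le_pow_right (by omega) h11
      _ ≤ n ^ 2 := hle

/-- a prime power `K` which is one modulo a prime `p ≥ 5` is at least `8` -/
lemma CII_eight (p K r s : ℕ) (h5 : 5 ≤ p) (hpp : p.Prime) (hK : p ∣ K - 1) (hK2 : 2 ≤ K) (hr : r.Prime)
    (hKr : K = r ^ s) : 8 ≤ K := by
  have hle : p ≤ K - 1 := Nat.le_of_dvd (by omega) hK
  have h6 : K ≠ 6 := by rw [hKr]; exact CII_six r s hr
  rcases Nat.lt_or_ge p 7 with h | h
  · have hp5 : p = 5 := by
      have h6 : p ≠ 6 := by rintro rfl; revert hpp; decide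
      omega
    subst hp5
    omega
  · omega

/-- `p` divides the index of `A` in `Y` if `Y / A` is nontrivial of exponent `p` -/
lemma CII_dvd (H : Type) [Group H] [Finite H] (p : ℕ) (hp : p.Prime) (A Y : Subgroup H)
    (hA : A.Normal) (hexp : ∀ y ∈ Y, y ^ p ∈ A) (h : A.relIndex Y ≠ 1) : p ∣ A.relIndex Y := by
  obtain ⟨q, hq, hqd⟩ := Nat.exists_prime_and_dvd h
  have hcard : A.relIndex Y = Nat.card (Y ⧸ A.subgroupOf Y) := rfl
  rw [hcard] at hqd
  have := Fact.mk hq
  obtain ⟨x, hx⟩ := exists_prime_orderOf_dvd_card' (G := Y ⧸ A.subgroupOf Y) q hqd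
  have hxp : x ^ p = 1 := by
    induction x using QuotientGroup.induction_on with
    | H y =>
      rw [← QuotientGroup.mk_pow, QuotientGroup.eq_one_iff, Subgroup.mem_subgroupOf]
      exact hexp y y.2
  have h1 : q ∣ p := by rw [← hx]; exact orderOf_dvd_of_pow_eq_one hxp
  have h2 : q = p := (Nat.prime_dvd_prime_iff_eq hq hp).mp h1
  rw [hcard, ← h2]
  exact hqd

theorem CII (hK2 : K2_stmt) (hK3 : K3_stmt) (hFS2 : FS2_stmt) (hFS4 : FS4_stmt) (hYA : YA_stmt)
    (hYB : YB_stmt) (hSUM : SUM_stmt) (hPK : PK_stmt) (hNII : NII_stmt) (hFIN : FIN_stmt) :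
    CII_stmt := by
  intro k U H _ _ _ _ _ _ _ _ hL S hS p hp h5 hex
  obtain ⟨hAn, hCn, hAC, hcomC, -⟩ := hK2 k U H hL
  obtain ⟨hfix, -, -, -⟩ := hK3 k U H hL
  obtain ⟨e, r, s, hr, hs, hKrs, hE, he2, hen, hHle, hpe, hU⟩ := hSUM k U H hL S hS
  have hF2 := hFS2 k U H hL S hS
  have hF4 := (hFS4 k U H hL S hS p hp).1
  have hPK' := hPK k U H hL S hS
  have hKge : 2 ≤ Nat.card k := Finite.one_lt_card
  -- the final count
  have hfinal : ∀ d : ℕ, (∀ x y : H, Heis p x y → ⁅x, y⁆ ∉ SA k U H →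
      ∃ d', d' ≤ d ∧ Nat.card {u : U // ⁅x, y⁆ • u = u} = Nat.card k ^ d') →
      ((402 ≤ Module.finrank k U ∧ 12 ≤ Nat.card k ∧ 4 * d ≤ 3 * Module.finrank k U) ∨
        (1024 ≤ Module.finrank k U ∧ 3 ≤ Nat.card k ∧ 4 * d ≤ 3 * Module.finrank k U) ∨
        (125 ≤ Module.finrank k U ∧ 8 ≤ Nat.card k ∧ 5 * d ≤ 3 * Module.finrank k U)) → Two p H U := by
    intro d hd hcase
    apply hFIN U H p
    have hcnt : {u : U | u ≠ 0 ∧ ¬ Good p H u}.ncard ≤ Nat.card H * Nat.card k ^ d := by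
      apply CII_cnt U H (fun z => ∃ x y : H, Heis p x y ∧ ⁅x, y⁆ ∉ SA k U H ∧ z = ⁅x, y⁆)
      · rintro z ⟨x, y, hxy, hn, rfl⟩
        obtain ⟨d', hd', hc⟩ := hd x y hxy hn
        rw [hc]
        exact Nat.pow_le_pow_right (by omega) hd'
      · rintro u ⟨hu0, hu⟩
        unfold Good at hu
        push Not at hu
        obtain ⟨x, y, hxy, hxu, hyu, -⟩ := hu
        have hzu : ⁅x, y⁆ • u = u := by
          have hxi : x⁻¹ • u = u := by rw [inv_smul_eq_iff, hxu]
          have hyi : y⁻¹ • u = u := by rw [inv_smul_eq_iff, hyu]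
          rw [commutatorElement_def, mul_smul, mul_smul, mul_smul, hyi, hxi, hyu, hxu]
        refine ⟨⁅x, y⁆, ⟨x, y, hxy, ?_, rfl⟩, hzu⟩
        intro hA
        exact hxy.2.2.1 (hfix _ hA u hu0 hzu)
    have hN := hNII e (Module.finrank k U) r s d he2 hen hr hs (by rw [← hKrs]; exact hcase)
    rw [← hKrs] at hN
    rw [hU]
    calc {u : U | u ≠ 0 ∧ ¬ Good p H u}.ncard + Nat.card H + 1
        ≤ Nat.card H * Nat.card k ^ d + Nat.card H + 1 := by omega
      _ ≤ s * (Nat.card k - 1) * Bd e * Nat.card k ^ d + s * (Nat.card k - 1) * Bd e + 1 := by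
          have := Nat.mul_le_mul_right (Nat.card k ^ d) hHle
          omega
      _ < Nat.card k ^ Module.finrank k U := hN
  have hE0 : 0 < (SA k U H).relIndex S := by rw [hE]; positivity
  have hEn : (SA k U H).relIndex S ≤ Module.finrank k U ^ 2 := by
    rw [hE]; exact Nat.pow_le_pow_left hen 2
  -- every commutator outside of `S` moves some `Y`
  have hmove : ∀ x y : H, ⁅x, y⁆ ∉ S → ∃ (Y : Subgroup H) (l : ℕ), Mnr k U H S Y l ∧
      ∃ u ∈ Y, ⁅⁅x, y⁆, u⁆ ∉ SA k U H := by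
    intro x y hn
    apply hS.gen
    intro hall
    exact hn (hS.self _ (hcomC x y) hall)
  have hYcomm : ∀ (Y : Subgroup H) (l : ℕ), Mnr k U H S Y l → ∀ a ∈ Y, ∀ b ∈ Y, ⁅a, b⁆ ∈ SA k U H :=
    fun Y l hY a ha b hb => hS.comm a (hY.hS ha) b (hY.hS hb)
  have hYdvd : ∀ (Y : Subgroup H) (l : ℕ), Mnr k U H S Y l →
      (SA k U H).relIndex Y ∣ (SA k U H).relIndex S := fun Y l hY =>
    ⟨Y.relIndex S, (Subgroup.relIndex_mul_relIndex _ _ _ hY.hA hY.hS).symm⟩
  by_cases hcase : ∃ (x y : H) (Y : Subgroup H) (l : ℕ), Heis p x y ∧ Mnr k U H S Y l ∧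
      (∃ u ∈ Y, ⁅⁅x, y⁆, u⁆ ∉ SA k U H) ∧ l ≠ p
  · -- case (a)
    obtain ⟨x, y, Y, l, hxy, hY, hu, hlp⟩ := hcase
    obtain ⟨i, hi, hmod, hdvd⟩ := hYA H p l hp hY.prime hlp (SA k U H) Y hAn hY.norm hY.hA
      (hYcomm Y l hY) hY.expo x y hxy hu
    have hdE : l ^ (i * p) ∣ (SA k U H).relIndex S := dvd_trans hdvd (hYdvd Y l hY)
    have hlE : l ∣ (SA k U H).relIndex S := by
      refine dvd_trans (dvd_pow_self l ?_) hdE
      exact Nat.mul_ne_zero (by omega) hp.ne_zero
    have hnum := CII_num p l i (Module.finrank k U) ((SA k U H).relIndex S) (Nat.card k) hp h5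
      hY.prime hi hmod hdE hE0 hEn (hPK' l hY.prime hlE) hKge
    apply hfinal (3 * Module.finrank k U / 4)
    · intro x' y' hxy' hn
      by_cases hz : ⁅x', y'⁆ ∈ S
      · obtain ⟨d, hd1, hd2⟩ := hF4 _ hz hn (CII_pow hxy')
        refine ⟨d, ?_, hd2⟩
        have : 5 * d ≤ p * d := Nat.mul_le_mul_right d h5
        omega
      · obtain ⟨d, hd1, hd2⟩ := hF2.1 _ (hcomC x' y') hz
        exact ⟨d, by omega, hd2⟩
    · rcases hnum with h | h
      · exact Or.inl ⟨h.1, h.2, by omega⟩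
      · exact Or.inr (Or.inl ⟨h.1, h.2, by omega⟩)
  · -- case (b)
    push Not at hcase
    obtain ⟨x, y, hxy, hn⟩ := hex
    obtain ⟨Y, l, hY, hu⟩ := hmove x y hn
    have hlp : l = p := hcase x y Y l hxy hY hu
    subst hlp
    have h15 := hYB H l hp h5 hL.solv (SA k U H) Y hAn hY.norm hY.hA (hYcomm Y l hY) hY.expo
      hY.mini x y hxy hu
    have hlY : l ∣ (SA k U H).relIndex Y := CII_dvd H l hp _ Y hAn hY.expo (by omega)
    have hlE : l ∣ (SA k U H).relIndex S := dvd_trans hlY (hYdvd Y l hY)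
    have hlK := hPK' l hp hlE
    have h8 : 8 ≤ Nat.card k := CII_eight l (Nat.card k) r s h5 hp hlK hKge hr hKrs
    have hn125 : 125 ≤ Module.finrank k U := by
      apply (Nat.pow_le_pow_iff_left (n := 2) (by norm_num)).mp
      calc 125 ^ 2 = 15625 := by norm_num
        _ ≤ (SA k U H).relIndex Y := h15
        _ ≤ (SA k U H).relIndex S := Nat.le_of_dvd hE0 (hYdvd Y l hY)
        _ ≤ _ := hEn
    apply hfinal (3 * Module.finrank k U / 5)
    · intro x' y' hxy' hn'
      by_cases hz : ⁅x', y'⁆ ∈ S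
      · obtain ⟨d, hd1, hd2⟩ := hF4 _ hz hn' (CII_pow hxy')
        refine ⟨d, ?_, hd2⟩
        have : 5 * d ≤ l * d := Nat.mul_le_mul_right d h5
        omega
      · obtain ⟨Y', l', hY', u', hu', hu2⟩ := hmove x' y' hz
        have hlp' : l' = l := hcase x' y' Y' l' hxy' hY' ⟨u', hu', hu2⟩
        subst hlp'
        have hmem : ⁅⁅x', y'⁆, u'⁆ ∈ Y' := by
          rw [commutatorElement_def]
          exact Y'.mul_mem (hY'.norm.conj_mem u' hu' _) (Y'.inv_mem hu')
        obtain ⟨d, hd1, hd2⟩ := hF2.2 l' hp h5 _ (hcomC x' y') u' (hY'.hS hu') hu2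
          (hY'.expo _ hmem)
        exact ⟨d, by omega, hd2⟩
    · exact Or.inr (Or.inr ⟨hn125, h8, by omega⟩)

end QS
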